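import Mathlib

/-!
# Numerical bound for the constants of `Rho.lean`
-/

open Filter Topology

namespace Pool.Agent.TH900.OM

noncomputable section

lemma inv_fac_le (N : ℕ) (hN : 1 ≤ N) : ((N.factorial : ℝ))⁻¹ ≤ Real.exp N / (N : ℝ) ^ N := by
  have h0 : (0 : ℝ) < N := by exact_mod_cast hN
  have h1 := Real.pow_div_factorial_le_exp (N : ℝ) h0.le N
  have h4 : (0 : ℝ) < (N : ℝ) ^ N := by positivity
  rw [div_le_iff₀ (by positivity)] at h1
  rw [inv_le_iff_one_le_mul₀ (by positivity)]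
  have h5 : Real.exp N / (N : ℝ) ^ N * (N.factorial : ℝ) = (Real.exp N * (N.factorial : ℝ)) / (N : ℝ) ^ N := by ring
  rw [h5, le_div_iff₀ h4, one_mul]
  exact h1

lemma inv_fac_pred_le (N : ℕ) : ((N.factorial : ℝ))⁻¹ ≤ (N + 1 : ℕ) * (Real.exp (N + 1 : ℕ) / ((N + 1 : ℕ) : ℝ) ^ (N + 1)) := by
  have h := inv_fac_le (N + 1) (by omega)
  have h2 : ((N + 1).factorial : ℝ) = ((N + 1 : ℕ) : ℝ) * (N.factorial : ℝ) := by
    rw [Nat.factorial_succ]; push_cast; ring
  rw [h2, mul_inv] at h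
  have h3 : (0 : ℝ) < ((N + 1 : ℕ) : ℝ) := by positivity
  have h4 := mul_le_mul_of_nonneg_left h h3.le
  rwa [← mul_assoc, mul_inv_cancel₀ h3.ne', one_mul] at h4

theorem KG_le (c x w : ℝ) (hc : 0 ≤ c) (hx : 0 < x) (hw : 1 ≤ w) (l b M : ℕ) (hl : 1 ≤ l) (hb : 1 ≤ b)
    {n D D' L : ℕ} (hn : 1 ≤ n) (hD : D = l * b * n + b) (hD' : D = D' + 1) (hL : L = l * n) :
    (c * n) * (((D : ℝ) * ((Real.exp (2 * Real.pi * ((D : ℝ) / 16)) * (x * n) ^ D) *
      ((w * n) ^ D' / ((7 / 160) ^ D' * (D'.factorial : ℝ))))) *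
      (((L : ℝ) + 1) ^ (2 * M) * 2 ^ L / (L.factorial : ℝ)) ^ b) ≤
    (c * (l * b + b) ^ 2 * ((l : ℝ) + 1) ^ (2 * M * b) * (x * w * (160 / 7) * Real.exp 1 / (l * b)) ^ b *
      Real.exp (Real.pi * b / 8)) * (n : ℝ) ^ (3 + 2 * M * b + b) *
      ((x * w * (160 / 7) * 2 / (l * b * l)) ^ (l * b * n) * Real.exp ((2 + Real.pi / 8) * (l * b * n))) := by
  have hn1 : (1 : ℝ) ≤ n := by exact_mod_cast hn
  have hn0 : (0 : ℝ) < n := by linarith
  have hl1 : (1 : ℝ) ≤ l := by exact_mod_cast hl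
  have hl0 : (0 : ℝ) < l := by linarith
  have hb1 : (1 : ℝ) ≤ b := by exact_mod_cast hb
  have hb0 : (0 : ℝ) < b := by linarith
  have hw0 : 0 < w := by linarith
  have hL1 : 1 ≤ L := by
    rw [hL]
    exact Nat.mul_pos hl hn
  have hDr : (D : ℝ) = l * b * n + b := by rw [hD]; push_cast; ring
  have hLr : (L : ℝ) = l * n := by rw [hL]; push_cast; ring
  have hD0 : (0 : ℝ) < D := by rw [hDr]; positivity
  have hL0 : (0 : ℝ) < L := by rw [hLr]; positivity
  -- the three factors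
  have f1 : (w * n) ^ D' ≤ (w * n) ^ D := pow_le_pow_right₀ (by nlinarith) (by omega)
  have f2 : ((7 / 160 : ℝ) ^ D')⁻¹ ≤ (160 / 7) ^ D := by
    rw [← inv_pow]
    have : (7 / 160 : ℝ)⁻¹ = 160 / 7 := by norm_num
    rw [this]
    exact pow_le_pow_right₀ (by norm_num) (by omega)
  have f3 : ((D'.factorial : ℝ))⁻¹ ≤ D * (Real.exp 1 / (l * b * n)) ^ D := by
    have h := inv_fac_pred_le D'
    rw [← hD'] at h
    refine h.trans ?_
    apply mul_le_mul_of_nonneg_left _ hD0.le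
    rw [div_pow, ← Real.exp_nat_mul, mul_one]
    apply div_le_div_of_nonneg_left (Real.exp_pos _).le (by positivity)
    apply pow_le_pow_left₀ (by positivity)
    rw [hDr]
    linarith
  have f4 : ((L.factorial : ℝ))⁻¹ ≤ (Real.exp 1 / (l * n)) ^ L := by
    refine (inv_fac_le L hL1).trans (le_of_eq ?_)
    rw [div_pow, ← Real.exp_nat_mul, mul_one, hLr]
  have g1 : (w * n) ^ D' / ((7 / 160) ^ D' * (D'.factorial : ℝ)) ≤
      (w * n) ^ D * ((160 / 7) ^ D * (D * (Real.exp 1 / (l * b * n)) ^ D)) := by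
    rw [div_eq_mul_inv, mul_inv]
    exact mul_le_mul f1 (mul_le_mul f2 f3 (by positivity) (by positivity)) (by positivity) (by positivity)
  have g2 : (((L : ℝ) + 1) ^ (2 * M) * 2 ^ L / (L.factorial : ℝ)) ^ b ≤
      (((l : ℝ) + 1) * n) ^ (2 * M * b) * (2 * Real.exp 1 / (l * n)) ^ (l * b * n) := by
    have h1 : ((L : ℝ) + 1) ^ (2 * M) * 2 ^ L / (L.factorial : ℝ) ≤
        (((l : ℝ) + 1) * n) ^ (2 * M) * (2 * Real.exp 1 / (l * n)) ^ L := by
      rw [div_eq_mul_inv, mul_assoc]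
      have h2 : (2 : ℝ) ^ L * ((L.factorial : ℝ))⁻¹ ≤ (2 * Real.exp 1 / (l * n)) ^ L := by
        refine (mul_le_mul_of_nonneg_left f4 (by positivity)).trans (le_of_eq ?_)
        rw [← mul_pow, mul_div_assoc]
      apply mul_le_mul _ h2 (by positivity) (by positivity)
      apply pow_le_pow_left₀ (by positivity)
      rw [hLr]
      nlinarith
    refine (pow_le_pow_left₀ (by positivity) h1 b).trans (le_of_eq ?_)
    rw [mul_pow, ← pow_mul, ← pow_mul]
    congr 2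
    rw [hL]
    ring
  -- multiply
  have g3 : (c * n) * (((D : ℝ) * ((Real.exp (2 * Real.pi * ((D : ℝ) / 16)) * (x * n) ^ D) *
      ((w * n) ^ D' / ((7 / 160) ^ D' * (D'.factorial : ℝ))))) *
      (((L : ℝ) + 1) ^ (2 * M) * 2 ^ L / (L.factorial : ℝ)) ^ b) ≤
      (c * n) * (((D : ℝ) * ((Real.exp (2 * Real.pi * ((D : ℝ) / 16)) * (x * n) ^ D) *
      ((w * n) ^ D * ((160 / 7) ^ D * (D * (Real.exp 1 / (l * b * n)) ^ D))))) *
      ((((l : ℝ) + 1) * n) ^ (2 * M * b) * (2 * Real.exp 1 / (l * n)) ^ (l * b * n))) := by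
    apply mul_le_mul_of_nonneg_left _ (by positivity)
    apply mul_le_mul _ g2 (by positivity) (by positivity)
    apply mul_le_mul_of_nonneg_left _ hD0.le
    exact mul_le_mul_of_nonneg_left g1 (by positivity)
  refine g3.trans ?_
  -- rewrite
  have r1 : (x * n) ^ D * ((w * n) ^ D * ((160 / 7) ^ D * (Real.exp 1 / (l * b * n)) ^ D)) =
      ((x * w * (160 / 7) * Real.exp 1 / (l * b)) * n) ^ (l * b * n) *
        ((x * w * (160 / 7) * Real.exp 1 / (l * b)) * n) ^ b := by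
    rw [← mul_pow, ← mul_pow, ← mul_pow, ← pow_add, ← hD]
    congr 1
    field_simp
  have r2 : ((x * w * (160 / 7) * Real.exp 1 / (l * b)) * n) ^ (l * b * n) *
      (2 * Real.exp 1 / (l * n)) ^ (l * b * n) =
      (x * w * (160 / 7) * 2 / (l * b * l)) ^ (l * b * n) * Real.exp (2 * (l * b * n)) := by
    have e : Real.exp (2 * ((l : ℝ) * b * n)) = (Real.exp 2) ^ (l * b * n) := by
      rw [← Real.exp_nat_mul]
      congr 1
      push_cast
      ring
    rw [e, ← mul_pow, ← mul_pow]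
    congr 1
    have e2 : Real.exp 2 = Real.exp 1 * Real.exp 1 := by rw [← Real.exp_add]; norm_num
    rw [e2]
    field_simp
  have r3 : Real.exp (2 * Real.pi * ((D : ℝ) / 16)) = Real.exp (Real.pi * b / 8) * Real.exp (Real.pi / 8 * (l * b * n)) := by
    rw [← Real.exp_add, hDr]
    congr 1
    ring
  have r4 : Real.exp ((2 + Real.pi / 8) * ((l : ℝ) * b * n)) =
      Real.exp (2 * (l * b * n)) * Real.exp (Real.pi / 8 * (l * b * n)) := by
    rw [← Real.exp_add]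
    congr 1
    ring
  have hDle : (D : ℝ) ≤ (l * b + b) * n := by
    rw [hDr]
    nlinarith
  have hD2 : (D : ℝ) ^ 2 ≤ ((l * b + b) * n) ^ 2 := pow_le_pow_left₀ hD0.le hDle 2
  set c1 : ℝ := x * w * (160 / 7) * Real.exp 1 / (l * b) with hc1
  have hc10 : 0 < c1 := by rw [hc1]; positivity
  set U : ℝ := (2 * Real.exp 1 / (l * n)) ^ (l * b * n) with hU
  set T : ℝ := (c1 * n) ^ (l * b * n) with hT
  set E1 : ℝ := Real.exp (Real.pi * b / 8) with hE1
  set E2 : ℝ := Real.exp (Real.pi / 8 * (l * b * n)) with hE2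
  have hU0 : 0 ≤ U := by rw [hU]; positivity
  have hT0 : 0 ≤ T := by rw [hT]; positivity
  rw [r3, r4]
  set q : ℝ := (x * w * (160 / 7) * 2 / (l * b * l)) ^ (l * b * n) with hq
  set E3 : ℝ := Real.exp (2 * (l * b * n)) with hE3
  calc (c * n) * (((D : ℝ) * ((E1 * E2 * (x * n) ^ D) *
      ((w * n) ^ D * ((160 / 7) ^ D * (D * (Real.exp 1 / (l * b * n)) ^ D))))) *
      ((((l : ℝ) + 1) * n) ^ (2 * M * b) * U))
      = (c * n) * (D : ℝ) ^ 2 * (E1 * E2) * (((x * n) ^ D * ((w * n) ^ D * ((160 / 7) ^ D *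
        (Real.exp 1 / (l * b * n)) ^ D))) * U) * (((l : ℝ) + 1) * n) ^ (2 * M * b) := by ring
    _ = (c * n) * (D : ℝ) ^ 2 * (E1 * E2) * ((T * U) * (c1 * n) ^ b) * (((l : ℝ) + 1) * n) ^ (2 * M * b) := by
        rw [r1]; ring
    _ = (c * n) * (D : ℝ) ^ 2 * (E1 * E2) * ((q * E3) * (c1 * n) ^ b) * (((l : ℝ) + 1) * n) ^ (2 * M * b) := by
        rw [r2]
    _ ≤ (c * n) * ((l * b + b) * n) ^ 2 * (E1 * E2) * ((q * E3) * (c1 * n) ^ b) *
        (((l : ℝ) + 1) * n) ^ (2 * M * b) := by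
        have hq0 : 0 ≤ q := by rw [hq]; positivity
        have : (c * n) * (D : ℝ) ^ 2 ≤ (c * n) * ((l * b + b) * n) ^ 2 :=
          mul_le_mul_of_nonneg_left hD2 (by positivity)
        apply mul_le_mul_of_nonneg_right _ (by positivity)
        apply mul_le_mul_of_nonneg_right _ (by positivity)
        exact mul_le_mul_of_nonneg_right this (by positivity)
    _ = _ := by
        rw [mul_pow ((l : ℝ) + 1), mul_pow c1, mul_pow ((l : ℝ) * b + b)]
        have e3 : (n : ℝ) ^ (3 + 2 * M * b + b) = n * n ^ 2 * (n : ℝ) ^ (2 * M * b) * (n : ℝ) ^ b := by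
          rw [pow_add, pow_add]
          ring
        rw [e3]
        ring

/-- polynomial times exponential decay -/
lemma exp_poly (A c a : ℝ) (K : ℕ) (hc : 0 < c) (ha : 0 < a) :
    ∀ᶠ n : ℕ in atTop, A * (n : ℝ) ^ K * Real.exp (-(a * n)) ≤ c := by
  have h0 : Tendsto (fun n : ℕ => a * (n : ℝ)) atTop atTop :=
    tendsto_natCast_atTop_atTop.const_mul_atTop ha
  have h := ((Real.tendsto_pow_mul_exp_neg_atTop_nhds_zero K).comp h0).const_mul (A * (1 / a) ^ K)
  rw [mul_zero] at h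
  filter_upwards [h.eventually (gt_mem_nhds hc)] with n h3
  refine le_trans (le_of_eq ?_) h3.le
  simp only [Function.comp_apply]
  rw [mul_pow, one_div, inv_pow]
  field_simp

end

end Pool.Agent.TH900.OM
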