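import Pool.Agent.H337R2.Sym
import Pool.Agent.TH900.QM.Interp

/-!
# Truncated `ℓ¹` norm of power series, and an interpolation bound in this norm
-/

open Polynomial Pool.Agent.H337R2

namespace Pool.Agent.TH900.OM

noncomputable section

variable {𝕜 : Type*} [NormedField 𝕜]

/-- sum of the norms of the first `m` coefficients -/
def NS (m : ℕ) (f : PowerSeries 𝕜) : ℝ := ∑ j ∈ Finset.range m, ‖PowerSeries.coeff j f‖

lemma NS_nonneg (m : ℕ) (f : PowerSeries 𝕜) : 0 ≤ NS m f := Finset.sum_nonneg fun _ _ => norm_nonneg _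

lemma coeff_le_NS {m j : ℕ} (hj : j < m) (f : PowerSeries 𝕜) : ‖PowerSeries.coeff j f‖ ≤ NS m f :=
  Finset.single_le_sum (f := fun j => ‖PowerSeries.coeff j f‖) (fun _ _ => norm_nonneg _) (Finset.mem_range.2 hj)

lemma NS_add (m : ℕ) (f g : PowerSeries 𝕜) : NS m (f + g) ≤ NS m f + NS m g := by
  unfold NS
  rw [← Finset.sum_add_distrib]
  refine Finset.sum_le_sum fun j _ => ?_
  rw [map_add]
  exact norm_add_le _ _

lemma NS_zero (m : ℕ) : NS m (0 : PowerSeries 𝕜) = 0 := by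
  unfold NS
  simp

lemma NS_sum {ι : Type*} (m : ℕ) (s : Finset ι) (f : ι → PowerSeries 𝕜) :
    NS m (∑ i ∈ s, f i) ≤ ∑ i ∈ s, NS m (f i) := by
  classical
  induction s using Finset.induction_on with
  | empty => simp [NS_zero]
  | insert a s ha ih =>
    rw [Finset.sum_insert ha, Finset.sum_insert ha]
    exact (NS_add _ _ _).trans (add_le_add_right ih _)

lemma NS_mul (m : ℕ) (f g : PowerSeries 𝕜) : NS m (f * g) ≤ NS m f * NS m g := by
  classical
  unfold NS
  have h1 : ∀ j ∈ Finset.range m, ‖PowerSeries.coeff j (f * g)‖ ≤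
      ∑ p ∈ Finset.HasAntidiagonal.antidiagonal j, ‖PowerSeries.coeff p.1 f‖ * ‖PowerSeries.coeff p.2 g‖ := by
    intro j _
    rw [PowerSeries.coeff_mul]
    refine (norm_sum_le _ _).trans (le_of_eq ?_)
    exact Finset.sum_congr rfl fun p _ => norm_mul _ _
  refine (Finset.sum_le_sum h1).trans ?_
  rw [← Finset.sum_biUnion]
  · rw [Finset.sum_mul_sum, ← Finset.sum_product']
    apply Finset.sum_le_sum_of_subset_of_nonneg
    · intro p hp
      rw [Finset.mem_biUnion] at hp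
      obtain ⟨j, hj, hp⟩ := hp
      rw [Finset.mem_range] at hj
      rw [Finset.HasAntidiagonal.mem_antidiagonal] at hp
      rw [Finset.mem_product, Finset.mem_range, Finset.mem_range]
      omega
    · intro p _ _
      positivity
  · intro i _ j _ hij
    rw [Function.onFun, Finset.disjoint_left]
    intro p hp hp2
    rw [Finset.HasAntidiagonal.mem_antidiagonal] at hp hp2
    exact hij (hp.symm.trans hp2)

lemma NS_one_le (m : ℕ) : NS m (1 : PowerSeries 𝕜) ≤ 1 := by
  unfold NS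
  have : ∀ j ∈ Finset.range m, ‖PowerSeries.coeff j (1 : PowerSeries 𝕜)‖ = if j = 0 then 1 else 0 := by
    intro j _
    rw [PowerSeries.coeff_one]
    split_ifs <;> simp
  rw [Finset.sum_congr rfl this, Finset.sum_ite_eq']
  split_ifs <;> norm_num

lemma NS_pow (m : ℕ) (f : PowerSeries 𝕜) (e : ℕ) : NS m (f ^ e) ≤ NS m f ^ e := by
  induction e with
  | zero => simpa using NS_one_le m
  | succ e ih =>
    rw [pow_succ, pow_succ]
    exact (NS_mul _ _ _).trans (mul_le_mul_of_nonneg_right ih (NS_nonneg _ f))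

lemma NS_prod {ι : Type*} (m : ℕ) (s : Finset ι) (f : ι → PowerSeries 𝕜) :
    NS m (∏ i ∈ s, f i) ≤ ∏ i ∈ s, NS m (f i) := by
  classical
  induction s using Finset.induction_on with
  | empty => simpa using NS_one_le m
  | insert a s ha ih =>
    rw [Finset.prod_insert ha, Finset.prod_insert ha]
    exact (NS_mul _ _ _).trans (mul_le_mul_of_nonneg_left ih (NS_nonneg _ _))

lemma NS_C (m : ℕ) (a : 𝕜) : NS m (PowerSeries.C a) ≤ ‖a‖ := by
  unfold NS
  have : ∀ j ∈ Finset.range m, ‖PowerSeries.coeff j (PowerSeries.C a)‖ = if j = 0 then ‖a‖ else 0 := by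
    intro j _
    rw [PowerSeries.coeff_C]
    split_ifs <;> simp
  rw [Finset.sum_congr rfl this, Finset.sum_ite_eq']
  split_ifs
  · exact le_rfl
  · exact norm_nonneg _

lemma NS_X (m : ℕ) : NS m (PowerSeries.X : PowerSeries 𝕜) ≤ 1 := by
  unfold NS
  have : ∀ j ∈ Finset.range m, ‖PowerSeries.coeff j (PowerSeries.X : PowerSeries 𝕜)‖ = if j = 1 then 1 else 0 := by
    intro j _
    rw [PowerSeries.coeff_X]
    split_ifs <;> simp
  rw [Finset.sum_congr rfl this, Finset.sum_ite_eq']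
  split_ifs <;> norm_num

lemma NS_lin (m : ℕ) (a : 𝕜) : NS m (PowerSeries.X + PowerSeries.C a) ≤ 1 + ‖a‖ :=
  (NS_add _ _ _).trans (add_le_add (NS_X m) (NS_C m a))

/-- the inverse of a linear factor -/
lemma NS_iv (m : ℕ) {a : ℚ} {d : ℕ} (hd : 1 ≤ d) (ha : |a| = d) :
    NS m (iv a) ≤ ((d : ℝ) + m) / (d : ℝ) ^ 2 := by
  have hd1 : (1 : ℝ) ≤ d := by exact_mod_cast hd
  have hd0 : (0 : ℝ) < d := by linarith
  have h1 : ∀ j, ‖PowerSeries.coeff j (iv a)‖ = 1 / (d : ℝ) ^ (j + 1) := by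
    intro j
    unfold iv
    rw [PowerSeries.coeff_mk, norm_div, norm_pow, norm_pow]
    have h2 : ‖(-1 : ℚ)‖ = 1 := by simp
    have h3 : ‖a‖ = (d : ℝ) := by
      rw [← Rat.norm_cast_real, Real.norm_eq_abs]
      exact_mod_cast ha
    rw [h2, h3, one_pow]
  unfold NS
  rw [Finset.sum_congr rfl fun j _ => h1 j]
  rcases Nat.eq_zero_or_pos m with rfl | hm
  · simp
    positivity
  obtain ⟨k, rfl⟩ : ∃ k, m = k + 1 := ⟨m - 1, by omega⟩
  rw [Finset.sum_range_succ']
  have h4 : ∀ j ∈ Finset.range k, 1 / (d : ℝ) ^ (j + 1 + 1) ≤ 1 / (d : ℝ) ^ 2 := by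
    intro j _
    apply one_div_le_one_div_of_le (by positivity)
    exact pow_le_pow_right₀ hd1 (by omega)
  refine (add_le_add_left (Finset.sum_le_sum h4) _).trans ?_
  rw [Finset.sum_const, Finset.card_range, nsmul_eq_mul, zero_add, pow_one]
  push_cast
  have h5 : ((d : ℝ) + (k + 1)) / (d : ℝ) ^ 2 = k * (1 / (d : ℝ) ^ 2) + 1 / d + 1 / (d : ℝ) ^ 2 := by
    field_simp
    ring
  rw [h5]
  have : 0 ≤ 1 / (d : ℝ) ^ 2 := by positivity
  linarith

/-- product over one half of a brick -/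
lemma half_brick (m L : ℕ) : ∏ j ∈ Finset.range L, ((((j + 1 : ℕ) : ℝ) + m) / (((j + 1 : ℕ) : ℝ)) ^ 2) ≤
    ((L : ℝ) + 1) ^ m / (L.factorial : ℝ) := by
  induction L with
  | zero => simp
  | succ L ih =>
    rw [Finset.prod_range_succ, Nat.factorial_succ]
    refine (mul_le_mul_of_nonneg_right ih (by positivity)).trans ?_
    have h1 : (0 : ℝ) < (L.factorial : ℝ) := by positivity
    have h2 : (0 : ℝ) < (L : ℝ) + 1 := by positivity
    push_cast
    have hb : 1 + m * (1 / ((L : ℝ) + 1)) ≤ (1 + 1 / ((L : ℝ) + 1)) ^ m :=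
      one_add_mul_le_pow (by
        have : 0 ≤ 1 / ((L : ℝ) + 1) := by positivity
        linarith) m
    have e1 : ((L : ℝ) + 1) ^ m / (L.factorial : ℝ) * ((((L : ℝ) + 1) + m) / ((L : ℝ) + 1) ^ 2) =
        ((L : ℝ) + 1) ^ m * (1 + m * (1 / ((L : ℝ) + 1))) / (((L : ℝ) + 1) * (L.factorial : ℝ)) := by
      field_simp
    rw [e1]
    have e2 : ((L : ℝ) + 1 + 1) ^ m = ((L : ℝ) + 1) ^ m * (1 + 1 / ((L : ℝ) + 1)) ^ m := by
      rw [← mul_pow]
      congr 1
      field_simp
      try ring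
    rw [e2]
    apply div_le_div_of_nonneg_right _ (by positivity)
    exact mul_le_mul_of_nonneg_left hb (by positivity)

/-- the local factor -/
def fk (M k m : ℕ) : ℝ := if m = k then 1 else NS M (iv (-(k : ℚ) + m))

lemma fk_nonneg (M k m : ℕ) : 0 ≤ fk M k m := by
  unfold fk
  split_ifs
  · norm_num
  · exact NS_nonneg _ _

lemma fk_le (M : ℕ) {k m j : ℕ} (h : m = k + j + 1 ∨ k = m + j + 1) :
    fk M k m ≤ (((j + 1 : ℕ) : ℝ) + M) / (((j + 1 : ℕ) : ℝ)) ^ 2 := by
  have hne : m ≠ k := by omega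
  have hab : |(-(k : ℚ) + m)| = ((j + 1 : ℕ) : ℚ) := by
    rcases h with h | h
    · rw [h]
      push_cast
      have : (-(k : ℚ) + (k + j + 1)) = j + 1 := by ring
      rw [this]
      exact abs_of_nonneg (by positivity)
    · rw [h]
      push_cast
      have : (-((m : ℚ) + j + 1) + m) = -(j + 1) := by ring
      rw [this, abs_neg]
      exact abs_of_nonneg (by positivity)
  unfold fk
  rw [if_neg hne]
  exact NS_iv M (by omega) hab

lemma brick (M : ℕ) {a b k : ℕ} (h1 : a ≤ k) (h2 : k ≤ b) :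
    ∏ m ∈ Finset.Icc a b, fk M k m ≤ (((k - a : ℕ) : ℝ) + 1) ^ M / ((k - a).factorial : ℝ) *
      ((((b - k : ℕ) : ℝ) + 1) ^ M / ((b - k).factorial : ℝ)) := by
  have e0 : Finset.Icc a b = Finset.Ico a (b + 1) := by
    ext m
    simp only [Finset.mem_Icc, Finset.mem_Ico]
    omega
  rw [e0, ← Finset.prod_Ico_consecutive (fk M k) h1 (by omega : k ≤ b + 1),
    Finset.prod_eq_prod_Ico_succ_bot (by omega : k < b + 1)]
  have hk : fk M k k = 1 := by simp [fk]
  rw [hk, one_mul]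
  apply mul_le_mul _ _ (Finset.prod_nonneg fun m _ => fk_nonneg _ _ _) (by positivity)
  · refine le_trans ?_ (half_brick M (k - a))
    rw [Finset.prod_Ico_eq_prod_range, ← Finset.prod_range_reflect]
    refine Finset.prod_le_prod (fun _ _ => fk_nonneg _ _ _) fun j hj => ?_
    rw [Finset.mem_range] at hj
    apply fk_le
    right
    omega
  · refine le_trans ?_ (half_brick M (b - k))
    rw [Finset.prod_Ico_eq_prod_range]
    have : b + 1 - (k + 1) = b - k := by omega
    rw [this]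
    refine Finset.prod_le_prod (fun _ _ => fk_nonneg _ _ _) fun j hj => ?_
    apply fk_le
    left
    omega

/-- a full brick -/
lemma brick_le (M : ℕ) {a b k : ℕ} (h1 : a ≤ k) (h2 : k ≤ b) :
    ∏ m ∈ Finset.Icc a b, fk M k m ≤ (((b - a : ℕ) : ℝ) + 1) ^ (2 * M) * 2 ^ (b - a) / ((b - a).factorial : ℝ) := by
  refine (brick M h1 h2).trans ?_
  set L := k - a with hL
  set R := b - k with hR
  have hLM : b - a = L + R := by omega
  rw [hLM]
  have h3 : ((L + R).choose R : ℝ) * L.factorial * R.factorial = (L + R).factorial := by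
    have := Nat.add_choose_mul_factorial_mul_factorial L R
    exact_mod_cast this
  have h5 : ((L + R).choose R : ℝ) ≤ 2 ^ (L + R) := by
    exact_mod_cast Nat.choose_le_two_pow (L + R) R
  have hL0 : (0 : ℝ) < (L.factorial : ℝ) := by positivity
  have hR0 : (0 : ℝ) < (R.factorial : ℝ) := by positivity
  rw [← h3]
  have hc0 : (0 : ℝ) < ((L + R).choose R : ℝ) := by
    have : 0 < (L + R).choose R := Nat.choose_pos (by omega)
    exact_mod_cast this
  have h7 : ((L : ℝ) + 1) ^ M ≤ (((L + R : ℕ) : ℝ) + 1) ^ M := by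
    apply pow_le_pow_left₀ (by positivity)
    push_cast
    have : (0 : ℝ) ≤ R := by positivity
    linarith
  have h8 : ((R : ℝ) + 1) ^ M ≤ (((L + R : ℕ) : ℝ) + 1) ^ M := by
    apply pow_le_pow_left₀ (by positivity)
    push_cast
    have : (0 : ℝ) ≤ L := by positivity
    linarith
  rw [div_mul_div_comm, mul_assoc ((L + R).choose R : ℝ), div_le_div_iff₀ (by positivity) (by positivity)]
  have h9 : ((L : ℝ) + 1) ^ M * ((R : ℝ) + 1) ^ M ≤ (((L + R : ℕ) : ℝ) + 1) ^ (2 * M) := by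
    rw [two_mul, pow_add]
    exact mul_le_mul h7 h8 (by positivity) (by positivity)
  calc ((L : ℝ) + 1) ^ M * ((R : ℝ) + 1) ^ M * (((L + R).choose R : ℝ) * (L.factorial * R.factorial))
      ≤ (((L + R : ℕ) : ℝ) + 1) ^ (2 * M) * (2 ^ (L + R) * (L.factorial * R.factorial)) := by
        apply mul_le_mul h9 (mul_le_mul_of_nonneg_right h5 (by positivity)) (by positivity) (by positivity)
    _ = _ := by ring

/-- a polynomial as a power series: shifted linear factor -/
lemma coe_shift_lin (c v : ℂ) : (((X - C v : ℂ[X]).comp (X + C c) : ℂ[X]) : PowerSeries ℂ) =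
    PowerSeries.X + PowerSeries.C (c - v) := by
  rw [Polynomial.sub_comp, Polynomial.X_comp, Polynomial.C_comp, add_sub_assoc, ← map_sub,
    Polynomial.coe_add, Polynomial.coe_X, Polynomial.coe_C]

/-- Lagrange interpolation in the norm `NS` -/
theorem interpNS (m N : ℕ) (v : ℕ → ℂ) (hv : Set.InjOn v (Finset.range N)) (f : ℂ[X]) (hf : f.natDegree < N)
    (c : ℂ) (F W D : ℝ) (hF : ∀ i < N, ‖f.eval (v i)‖ ≤ F) (hW : ∀ i < N, 1 + ‖c - v i‖ ≤ W) (hD0 : 0 < D)
    (hD : ∀ i < N, D ≤ ∏ j ∈ (Finset.range N).erase i, ‖v i - v j‖) :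
    NS m ((f.comp (X + C c) : ℂ[X]) : PowerSeries ℂ) ≤ N * (F * (W ^ (N - 1) / D)) := by
  have hN : 0 < N := by omega
  have hF0 : 0 ≤ F := (norm_nonneg _).trans (hF 0 hN)
  have hW0 : 0 ≤ W := (by positivity : (0 : ℝ) ≤ 1 + ‖c - v 0‖).trans (hW 0 hN)
  have hdeg : f.degree < (Finset.range N).card := by
    rw [Finset.card_range]
    exact (Polynomial.degree_le_natDegree).trans_lt (by exact_mod_cast hf)
  have h := Lagrange.eq_interpolate hv hdeg
  have h2 : ((f.comp (X + C c) : ℂ[X]) : PowerSeries ℂ) = ∑ i ∈ Finset.range N, PowerSeries.C (f.eval (v i)) *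
      ∏ j ∈ (Finset.range N).erase i, (PowerSeries.C (v i - v j)⁻¹ * (PowerSeries.X + PowerSeries.C (c - v j))) := by
    conv_lhs => rw [h]
    rw [Lagrange.interpolate_apply, Polynomial.sum_comp]
    have e1 : ∀ (s : Finset ℕ) (g : ℕ → ℂ[X]), ((∑ i ∈ s, g i : ℂ[X]) : PowerSeries ℂ) = ∑ i ∈ s, (g i : PowerSeries ℂ) := by
      intro s g
      exact map_sum (Polynomial.coeToPowerSeries.ringHom (R := ℂ)) g s
    have e2 : ∀ (s : Finset ℕ) (g : ℕ → ℂ[X]), ((∏ i ∈ s, g i : ℂ[X]) : PowerSeries ℂ) = ∏ i ∈ s, (g i : PowerSeries ℂ) := by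
      intro s g
      exact map_prod (Polynomial.coeToPowerSeries.ringHom (R := ℂ)) g s
    rw [e1]
    refine Finset.sum_congr rfl fun i _ => ?_
    rw [Polynomial.mul_comp, Polynomial.C_comp, Polynomial.coe_mul, Polynomial.coe_C]
    congr 1
    unfold Lagrange.basis
    rw [Polynomial.prod_comp, e2]
    refine Finset.prod_congr rfl fun j _ => ?_
    unfold Lagrange.basisDivisor
    rw [Polynomial.mul_comp, Polynomial.C_comp, Polynomial.coe_mul, Polynomial.coe_C, coe_shift_lin]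
  rw [h2]
  refine (NS_sum _ _ _).trans ?_
  have h3 : ∀ i ∈ Finset.range N, NS m (PowerSeries.C (f.eval (v i)) *
      ∏ j ∈ (Finset.range N).erase i, (PowerSeries.C (v i - v j)⁻¹ * (PowerSeries.X + PowerSeries.C (c - v j)))) ≤
      F * (W ^ (N - 1) / D) := by
    intro i hi
    rw [Finset.mem_range] at hi
    refine (NS_mul _ _ _).trans ?_
    refine mul_le_mul ((NS_C _ _).trans (hF i hi)) ?_ (NS_nonneg _ _) hF0
    refine (NS_prod _ _ _).trans ?_
    have h4 : ∏ j ∈ (Finset.range N).erase i, NS m (PowerSeries.C (v i - v j)⁻¹ *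
        (PowerSeries.X + PowerSeries.C (c - v j))) ≤
        (∏ j ∈ (Finset.range N).erase i, (1 + ‖c - v j‖)) / ∏ j ∈ (Finset.range N).erase i, ‖v i - v j‖ := by
      rw [← Finset.prod_div_distrib]
      refine Finset.prod_le_prod (fun _ _ => NS_nonneg _ _) fun j _ => ?_
      refine (NS_mul _ _ _).trans ?_
      rw [div_eq_inv_mul, ← norm_inv]
      exact mul_le_mul (NS_C _ _) (NS_lin _ _) (NS_nonneg _ _) (norm_nonneg _)
    refine h4.trans ?_
    have h5 : ∏ j ∈ (Finset.range N).erase i, (1 + ‖c - v j‖) ≤ W ^ (N - 1) := by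
      refine (Finset.prod_le_prod (fun _ _ => by positivity) fun j hj => hW j ?_).trans ?_
      · exact Finset.mem_range.1 (Finset.mem_erase.1 hj).2
      · rw [Finset.prod_const, Finset.card_erase_of_mem (Finset.mem_range.2 hi), Finset.card_range]
    exact div_le_div₀ (by positivity) h5 hD0 (hD i hi)
  refine (Finset.sum_le_sum h3).trans (le_of_eq ?_)
  rw [Finset.sum_const, Finset.card_range, nsmul_eq_mul]

/-- the Taylor series over `ℚ` and over `ℂ` -/
lemma NS_TS (m : ℕ) (c : ℚ) (P : ℚ[X]) :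
    NS m (TS c P) = NS m (((P.map (algebraMap ℚ ℂ)).comp (X + C (c : ℂ)) : ℂ[X]) : PowerSeries ℂ) := by
  unfold NS
  refine Finset.sum_congr rfl fun j _ => ?_
  have h1 : PowerSeries.coeff j (TS c P) = (P.comp (X + C c)).coeff j := by
    unfold TS
    simp [Polynomial.taylor_apply]
  have h2 : (P.map (algebraMap ℚ ℂ)).comp (X + C (c : ℂ)) = (P.comp (X + C c)).map (algebraMap ℚ ℂ) := by
    rw [Polynomial.map_comp]
    simp
  rw [h1, h2, Polynomial.coeff_coe, Polynomial.coeff_map]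
  rw [← Rat.norm_cast_real, Real.norm_eq_abs]
  simp

/-- the coefficients of the partial fractions -/
theorem pa_le (m : ℕ) (s : Finset ℕ) (μ : ℕ → ℕ) (P : ℚ[X]) (k i : ℕ) (hμ : μ k ≤ m) (hi : 1 ≤ i) (A V : ℝ)
    (hA : NS m (TS (-(k : ℚ)) P) ≤ A) (hV : NS m (VV (s.erase k) μ (-(k : ℚ))) ≤ V) (hV0 : 0 ≤ A * V) :
    |((pa s μ P k i : ℚ) : ℝ)| ≤ A * V := by
  unfold pa
  split_ifs with h
  · unfold pfc
    have h1 : |((PowerSeries.coeff (μ k - i) (TS (-(k : ℚ)) P * VV (s.erase k) μ (-(k : ℚ))) : ℚ) : ℝ)| =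
        ‖PowerSeries.coeff (μ k - i) (TS (-(k : ℚ)) P * VV (s.erase k) μ (-(k : ℚ)))‖ := by
      rw [← Real.norm_eq_abs, Rat.norm_cast_real]
    rw [h1]
    refine (coeff_le_NS (m := m) (by omega) _).trans ((NS_mul _ _ _).trans ?_)
    exact mul_le_mul hA hV (NS_nonneg _ _) ((NS_nonneg _ _).trans hA)
  · simpa using hV0

end

end Pool.Agent.TH900.OM
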