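import Pool.Agent.TH900.QM.PB

/-!
# A suitable prime

For every large `L` and every `b` with `log b ≤ L` there is a prime `n = 1 mod 24` with
`c0 L < n ≤ c1 L` and `n^j ∤ b`, as soon as `8 < j (c1 - c0)`.
-/

open Filter Topology

namespace Pool.Agent.TH900.OM

noncomputable section

open Pool.Agent.TH900.QM (tt24 PA24')

theorem prime_between (j : ℕ) (hj : 1 ≤ j) (c0 c1 : ℝ) (hc0 : 0 < c0) (hc : 8 < j * (c1 - c0)) :
    ∃ L0 : ℝ, 1 ≤ L0 ∧ ∀ L : ℝ, L0 ≤ L → ∀ b : ℕ, 0 < b → Real.log b ≤ L →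
    ∃ p : ℕ, p.Prime ∧ p % 24 = 1 ∧ c0 * L < p ∧ (p : ℝ) ≤ c1 * L ∧ ¬ p ^ j ∣ b := by
  have hj0 : (1 : ℝ) ≤ j := by exact_mod_cast hj
  have hc1 : 0 < c1 := by
    by_contra h
    push Not at h
    have : (j : ℝ) * (c1 - c0) ≤ 0 := mul_nonpos_of_nonneg_of_nonpos (by linarith) (by linarith)
    linarith
  have hc01 : c0 ≤ c1 := by
    by_contra h
    push Not at h
    have : (j : ℝ) * (c1 - c0) ≤ 0 := mul_nonpos_of_nonneg_of_nonpos (by linarith) (by linarith)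
    linarith
  set δ : ℝ := j * (c1 - c0) / 8 - 1 with hδ
  have hδ0 : 0 < δ := by rw [hδ]; linarith
  set ε : ℝ := δ / (4 * j * c1) with hε
  have hε0 : 0 < ε := by rw [hε]; positivity
  have hεj : (j : ℝ) * ε * c1 = δ / 4 := by
    rw [hε]
    field_simp
  obtain ⟨T, hT1, hT⟩ := PA24' ε hε0
  refine ⟨max 1 (max ((T + 1) / c0) (j / (2 * δ))), le_max_left _ _, fun L hL b hb hbL => ?_⟩
  have hL1 : 1 ≤ L := (le_max_left _ _).trans hL
  have hLT : (T : ℝ) + 1 ≤ c0 * L := by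
    have h1 : ((T : ℝ) + 1) / c0 ≤ L := (le_max_left _ _).trans ((le_max_right _ _).trans hL)
    rw [div_le_iff₀ hc0] at h1
    linarith
  have hLj : (j : ℝ) ≤ 2 * δ * L := by
    have h1 : (j : ℝ) / (2 * δ) ≤ L := (le_max_right _ _).trans ((le_max_right _ _).trans hL)
    rw [div_le_iff₀ (by positivity)] at h1
    linarith
  by_contra hcon
  push Not at hcon
  set m1 : ℕ := ⌊c0 * L⌋₊ with hm1
  set m2 : ℕ := ⌊c1 * L⌋₊ with hm2
  have a1 : (m1 : ℝ) ≤ c0 * L := Nat.floor_le (by positivity)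
  have a1' : c0 * L < m1 + 1 := Nat.lt_floor_add_one _
  have a2 : (m2 : ℝ) ≤ c1 * L := Nat.floor_le (by positivity)
  have a2' : c1 * L < m2 + 1 := Nat.lt_floor_add_one _
  have hT1' : T ≤ m1 := by
    have : (T : ℝ) ≤ m1 := by linarith
    exact_mod_cast this
  have hm12 : m1 ≤ m2 := Nat.floor_le_floor (by nlinarith)
  set S : Finset ℕ := (Finset.Ioc m1 m2).filter (fun p => p.Prime ∧ p % 24 = 1) with hS
  have hmem : ∀ p ∈ S, p.Prime ∧ p ^ j ∣ b := by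
    intro p hp
    rw [hS, Finset.mem_filter, Finset.mem_Ioc] at hp
    refine ⟨hp.2.1, ?_⟩
    have h1 : c0 * L < p := (Nat.floor_lt (by positivity)).1 hp.1.1
    have h2 : (p : ℝ) ≤ c1 * L := (Nat.le_floor_iff (by positivity)).1 hp.1.2
    exact hcon p hp.2.1 hp.2.2 h1 h2
  have hdvd : ∏ p ∈ S, p ^ j ∣ b := by
    have h1 : (∏ p ∈ S, ((p : ℤ)) ^ j) ∣ (b : ℤ) := by
      apply Finset.prod_dvd_of_coprime
      · intro p hp r hr hpr
        have h2 : Nat.Coprime p r := (Nat.coprime_primes (hmem p hp).1 (hmem r hr).1).2 hpr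
        exact (Nat.isCoprime_iff_coprime.2 h2).pow
      · intro p hp
        exact_mod_cast (hmem p hp).2
    exact_mod_cast h1
  have hle : ∏ p ∈ S, p ^ j ≤ b := Nat.le_of_dvd hb hdvd
  have hlog : j * ∑ p ∈ S, Real.log p ≤ Real.log b := by
    have h1 : ((∏ p ∈ S, p ^ j : ℕ) : ℝ) = ∏ p ∈ S, (p : ℝ) ^ j := by push_cast; rfl
    have h2 : j * ∑ p ∈ S, Real.log p = Real.log (∏ p ∈ S, (p : ℝ) ^ j) := by
      rw [Real.log_prod (fun p hp => by
        have := (hmem p hp).1.pos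
        positivity), Finset.mul_sum]
      refine Finset.sum_congr rfl fun p _ => ?_
      rw [Real.log_pow]
    rw [h2, ← h1]
    apply Real.log_le_log
    · have : 0 < ∏ p ∈ S, p ^ j := Finset.prod_pos fun p hp => pow_pos (hmem p hp).1.pos j
      exact_mod_cast this
    · exact_mod_cast hle
  have hsum : ∑ p ∈ S, Real.log p = ∑ k ∈ Finset.Ioc 0 m2, tt24 k - ∑ k ∈ Finset.Ioc 0 m1, tt24 k := by
    have h1 : ∑ k ∈ Finset.Ioc 0 m2, tt24 k = ∑ k ∈ Finset.Ioc 0 m1, tt24 k + ∑ k ∈ Finset.Ioc m1 m2, tt24 k := by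
      rw [← Finset.sum_union]
      · rw [Finset.Ioc_union_Ioc_eq_Ioc (Nat.zero_le _) hm12]
      · rw [Finset.disjoint_left]
        intro k hk hk2
        rw [Finset.mem_Ioc] at hk hk2
        omega
    rw [h1, add_sub_cancel_left, hS, Finset.sum_filter]
    rfl
  have h1 := abs_le.1 (hT m1 hT1')
  have h2 := abs_le.1 (hT m2 (hT1'.trans hm12))
  rw [hsum] at hlog
  have h3 : (c1 - c0) * L / 8 - 1 / 8 - 2 * (ε * (c1 * L)) <
      ∑ k ∈ Finset.Ioc 0 m2, tt24 k - ∑ k ∈ Finset.Ioc 0 m1, tt24 k := by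
    have h4 : ε * (m1 : ℝ) ≤ ε * (c1 * L) := mul_le_mul_of_nonneg_left (by nlinarith) hε0.le
    have h5 : ε * (m2 : ℝ) ≤ ε * (c1 * L) := mul_le_mul_of_nonneg_left a2 hε0.le
    linarith [h1.2, h2.1]
  have h4 : (j : ℝ) * ((c1 - c0) * L / 8 - 1 / 8 - 2 * (ε * (c1 * L))) < Real.log b :=
    lt_of_lt_of_le (mul_lt_mul_of_pos_left h3 (by linarith)) hlog
  have h5 : (j : ℝ) * ((c1 - c0) * L / 8 - 1 / 8 - 2 * (ε * (c1 * L))) =
      (δ + 1) * L - j / 8 - 2 * (j * ε * c1) * L := by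
    rw [hδ]; ring
  rw [h5, hεj] at h4
  linarith

lemma norm_frac_le (j : ℕ) {n b : ℕ} [hn : Fact n.Prime] (hb : 0 < b) (hnb : ¬ n ^ (j + 1) ∣ b) (a : ℤ) :
    padicNorm n ((a : ℚ) / b) ≤ (n : ℚ) ^ j := by
  have hbq : (b : ℚ) ≠ 0 := by exact_mod_cast hb.ne'
  have hn0 : (0 : ℚ) < n := by exact_mod_cast hn.out.pos
  have hn1 : (1 : ℚ) ≤ n := by exact_mod_cast hn.out.one_le
  have hv : padicValNat n b ≤ j := by
    by_contra h
    exact hnb ((padicValNat_dvd_iff_le hb.ne').2 (by omega))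
  have h1 : padicNorm n (b : ℚ) = (n : ℚ) ^ (-(padicValNat n b : ℤ)) := by
    rw [padicNorm.eq_zpow_of_nonzero hbq, padicValRat.of_nat]
  have h2 : ((n : ℚ) ^ j)⁻¹ ≤ padicNorm n (b : ℚ) := by
    rw [h1, ← zpow_natCast, ← zpow_neg]
    exact zpow_le_zpow_right₀ hn1 (by omega)
  rw [padicNorm.div]
  have h3 : padicNorm n (a : ℚ) ≤ 1 := padicNorm.of_int a
  have hnj : (0 : ℚ) < (n : ℚ) ^ j := by positivity
  have h4 : (0 : ℚ) < padicNorm n (b : ℚ) := lt_of_lt_of_le (by positivity) h2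
  rw [div_le_iff₀ h4]
  calc padicNorm n (a : ℚ) ≤ 1 := h3
    _ = (n : ℚ) ^ j * ((n : ℚ) ^ j)⁻¹ := by field_simp
    _ ≤ (n : ℚ) ^ j * padicNorm n (b : ℚ) := mul_le_mul_of_nonneg_left h2 hnj.le

end

end Pool.Agent.TH900.OM
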