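import Pool.Agent.TH900.OM.NT
import Pool.Agent.H337R2.Data

/-!
# Bound for the partial fraction coefficients by the values on the slanted line
-/

open Polynomial Pool.Agent.H337R2

namespace Pool.Agent.TH900.OM

noncomputable section

/-- the slanted line `-1/2 + r (1 + i)` -/
def z0 (r : ℝ) : ℂ := ((-1 / 2 : ℝ) : ℂ) + (r : ℂ) * (1 + Complex.I)

lemma z0_add_sq (r a : ℝ) : ‖z0 r + (a : ℂ)‖ ^ 2 = (-1 / 2 + r + a) ^ 2 + r ^ 2 := by
  have h : z0 r + (a : ℂ) = ((-1 / 2 + r + a : ℝ) : ℂ) + (r : ℂ) * Complex.I := by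
    unfold z0
    push_cast
    ring
  rw [h, ← Complex.normSq_eq_norm_sq, Complex.normSq_add_mul_I]

lemma norm_one_add_I : (7 : ℝ) / 5 ≤ ‖(1 : ℂ) + Complex.I‖ := by
  have h : ‖(1 : ℂ) + Complex.I‖ ^ 2 = 2 := by
    have h1 : (1 : ℂ) + Complex.I = ((1 : ℝ) : ℂ) + ((1 : ℝ) : ℂ) * Complex.I := by push_cast; ring
    rw [h1, ← Complex.normSq_eq_norm_sq, Complex.normSq_add_mul_I]
    norm_num
  have h0 := norm_nonneg ((1 : ℂ) + Complex.I)
  nlinarith

/-- the nodes -/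
def vz (j : ℕ) : ℂ := z0 ((j : ℝ) / 16)

lemma vz_sub (i j : ℕ) : 7 / 80 * |(i : ℝ) - j| ≤ ‖vz i - vz j‖ := by
  have h : vz i - vz j = ((((i : ℝ) - j) / 16 : ℝ) : ℂ) * (1 + Complex.I) := by
    unfold vz z0
    push_cast
    ring
  rw [h, norm_mul, Complex.norm_real, Real.norm_eq_abs, abs_div, abs_of_pos (by norm_num : (0 : ℝ) < 16)]
  have h1 := norm_one_add_I
  have h2 : 0 ≤ |(i : ℝ) - j| := abs_nonneg _
  nlinarith

lemma vz_inj (S : Finset ℕ) : Set.InjOn vz S := by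
  intro i _ j _ hij
  have h := vz_sub i j
  rw [hij, sub_self, norm_zero] at h
  have h1 : |(i : ℝ) - j| = 0 := le_antisymm (by linarith) (abs_nonneg _)
  rw [abs_eq_zero, sub_eq_zero] at h1
  exact_mod_cast h1

lemma vz_prod {N i : ℕ} (hi : i < N) :
    (7 / 160) ^ (N - 1) * ((N - 1).factorial : ℝ) ≤ ∏ j ∈ (Finset.range N).erase i, ‖vz i - vz j‖ := by
  have h1 : ∏ j ∈ (Finset.range N).erase i, (7 / 80 * |(i : ℝ) - j|) ≤
      ∏ j ∈ (Finset.range N).erase i, ‖vz i - vz j‖ :=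
    Finset.prod_le_prod (fun _ _ => by positivity) fun j _ => vz_sub i j
  refine le_trans ?_ h1
  rw [Finset.prod_mul_distrib, Finset.prod_const, Finset.card_erase_of_mem (Finset.mem_range.2 hi),
    Finset.card_range, QM.prod_dist N i hi]
  have h2 := QM.fac_le N i hi
  have e : (7 / 160 : ℝ) ^ (N - 1) * ((N - 1).factorial : ℝ) =
      (7 / 80) ^ (N - 1) * (((N - 1).factorial : ℝ) / 2 ^ (N - 1)) := by
    rw [mul_div_assoc', mul_comm ((7 / 80 : ℝ) ^ (N - 1)), mul_div_assoc, ← div_pow, mul_comm]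
    norm_num
  rw [e]
  exact mul_le_mul_of_nonneg_left h2 (by positivity)

/-- the denominator on the line -/
lemma QQ_bound (s : Finset ℕ) (μ : ℕ → ℕ) (z : ℂ) (X : ℝ) (hX : ∀ m ∈ s, μ m ≠ 0 → ‖z + m‖ ≤ X) :
    ‖aeval z (QQ s μ)‖ ≤ X ^ (∑ m ∈ s, μ m) := by
  unfold QQ
  rw [map_prod, norm_prod, ← Finset.prod_pow_eq_pow_sum]
  refine Finset.prod_le_prod (fun _ _ => norm_nonneg _) fun m hm => ?_
  rw [map_pow, norm_pow]
  by_cases h : μ m = 0
  · rw [h, pow_zero, pow_zero]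
  · apply pow_le_pow_left₀ (norm_nonneg _)
    have h1 := hX m hm h
    simpa using h1

/-- bound for the Taylor coefficients of the numerator at the pole `k` -/
theorem NS_line (M : ℕ) (s : Finset ℕ) (μ : ℕ → ℕ) (P : ℚ[X]) (D : ℕ) (hD : D = ∑ m ∈ s, μ m)
    (hP : P.natDegree < D) (hs : ∀ k ∈ s, 1 ≤ k) (B X W : ℝ)
    (hB : ∀ r : ℝ, 0 ≤ r → ‖aeval (z0 r) P / aeval (z0 r) (QQ s μ)‖ * Real.exp (-(2 * Real.pi * r)) ≤
      B * (1 + r ^ 2)⁻¹)
    (hX : ∀ m ∈ s, μ m ≠ 0 → ∀ r : ℝ, 0 ≤ r → r ≤ D / 16 → ‖z0 r + m‖ ≤ X) (k : ℕ)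
    (hW : ∀ r : ℝ, 0 ≤ r → r ≤ D / 16 → 1 + ‖z0 r + k‖ ≤ W) :
    NS M (TS (-(k : ℚ)) P) ≤ B * (D * ((Real.exp (2 * Real.pi * (D / 16)) * X ^ D) *
      (W ^ (D - 1) / ((7 / 160) ^ (D - 1) * ((D - 1).factorial : ℝ))))) := by
  have hB0 : 0 ≤ B := by
    have h := hB 0 le_rfl
    simp only [mul_zero, neg_zero, Real.exp_zero, mul_one, ne_eq, OfNat.ofNat_ne_zero,
      not_false_eq_true, zero_pow, add_zero, inv_one] at h
    exact le_trans (by positivity) h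
  have hD1 : 0 < D := by omega
  rw [NS_TS]
  have hf : (P.map (algebraMap ℚ ℂ)).natDegree < D := (natDegree_map_le).trans_lt hP
  have hQ0 : ∀ r : ℝ, 0 ≤ r → aeval (z0 r) (QQ s μ) ≠ 0 := by
    intro r hr
    unfold QQ
    rw [map_prod, Finset.prod_ne_zero_iff]
    intro m hm
    rw [map_pow, map_add, aeval_X, aeval_C]
    apply pow_ne_zero
    intro h0
    have h1 := z0_add_sq r (m : ℝ)
    have h2 : z0 r + ((m : ℝ) : ℂ) = 0 := by
      rw [← h0]; simp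
    rw [h2, norm_zero] at h1
    have hm1 : (1 : ℝ) ≤ m := by exact_mod_cast hs m hm
    have h3 : 0 < (-1 / 2 + r + (m : ℝ)) ^ 2 := by
      have : 0 < -1 / 2 + r + (m : ℝ) := by linarith
      positivity
    nlinarith [sq_nonneg r]
  have h := interpNS M D vz (vz_inj _) (P.map (algebraMap ℚ ℂ)) hf ((-(k : ℚ) : ℚ) : ℂ)
    (B * (Real.exp (2 * Real.pi * (D / 16)) * X ^ D)) W ((7 / 160) ^ (D - 1) * ((D - 1).factorial : ℝ))
    ?_ ?_ (by positivity) ?_
  · refine h.trans (le_of_eq ?_)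
    ring
  · intro i hi
    have hr0 : (0 : ℝ) ≤ (i : ℝ) / 16 := by positivity
    have hr1 : (i : ℝ) / 16 ≤ D / 16 := by
      have : (i : ℝ) ≤ D := by exact_mod_cast hi.le
      linarith
    rw [eval_map_algebraMap]
    have hb := hB ((i : ℝ) / 16) hr0
    have hQ := hQ0 ((i : ℝ) / 16) hr0
    set z : ℂ := z0 ((i : ℝ) / 16) with hz
    have hv : vz i = z := rfl
    rw [hv]
    have hQb := QQ_bound s μ z X (fun m hm hμ => by
      have := hX m hm hμ _ hr0 hr1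
      exact this)
    rw [← hD] at hQb
    have hinv : (1 + ((i : ℝ) / 16) ^ 2)⁻¹ ≤ 1 := inv_le_one_of_one_le₀ (by nlinarith [sq_nonneg ((i : ℝ) / 16)])
    have hb2 : ‖aeval z P / aeval z (QQ s μ)‖ * Real.exp (-(2 * Real.pi * ((i : ℝ) / 16))) ≤ B := by
      refine hb.trans ?_
      nlinarith
    have hexp : Real.exp (2 * Real.pi * ((i : ℝ) / 16)) ≤ Real.exp (2 * Real.pi * (D / 16)) := by
      apply Real.exp_le_exp.2
      have := Real.pi_pos
      nlinarith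
    have hb3 : ‖aeval z P / aeval z (QQ s μ)‖ ≤ B * Real.exp (2 * Real.pi * (D / 16)) := by
      have h1 := mul_le_mul_of_nonneg_right hb2 (Real.exp_pos (2 * Real.pi * ((i : ℝ) / 16))).le
      rw [mul_assoc, ← Real.exp_add, neg_add_cancel, Real.exp_zero, mul_one] at h1
      exact h1.trans (mul_le_mul_of_nonneg_left hexp hB0)
    have e : ‖aeval z P‖ = ‖aeval z P / aeval z (QQ s μ)‖ * ‖aeval z (QQ s μ)‖ := by
      rw [norm_div, div_mul_cancel₀]
      exact (norm_pos_iff.2 hQ).ne'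
    rw [e]
    calc _ ≤ (B * Real.exp (2 * Real.pi * (D / 16))) * X ^ D :=
          mul_le_mul hb3 hQb (norm_nonneg _) (by positivity)
      _ = _ := by ring
  · intro i hi
    have hr0 : (0 : ℝ) ≤ (i : ℝ) / 16 := by positivity
    have hr1 : (i : ℝ) / 16 ≤ D / 16 := by
      have : (i : ℝ) ≤ D := by exact_mod_cast hi.le
      linarith
    have h1 := hW _ hr0 hr1
    have e : ((-(k : ℚ) : ℚ) : ℂ) - vz i = -(z0 ((i : ℝ) / 16) + k) := by
      unfold vz
      push_cast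
      ring
    rw [e, norm_neg]
    exact h1
  · intro i hi
    exact vz_prod hi

end

end Pool.Agent.TH900.OM
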